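import Pool.Agent.Y171.CE.Stm

set_option autoImplicit false

open Polynomial Matrix

namespace Pool.Agent.Y486.CE

open Pool.Agent.Y171.CE

lemma drop_take_ofFn {α : Type} {m : ℕ} (s t : ℕ) (hst : s + t ≤ m) (h : Fin m → α) :
    ((List.ofFn h).drop s).take t =
      List.ofFn (fun i : Fin t => h ⟨s + i, lt_of_lt_of_le (Nat.add_lt_add_left i.2 s) hst⟩) := by
  apply List.ext_getElem
  · simp only [List.length_take, List.length_drop, List.length_ofFn]
    omega
  · intro i h1 h2
    simp

open Classical in
lemma count_mid {α : Type} [Fintype α] (m s t : ℕ) (hst : s + t ≤ m) (P : List α → Prop) :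
    (Finset.univ.filter (fun h : Fin m → α => P (((List.ofFn h).drop s).take t))).card ≤
      Fintype.card α ^ (m - t) *
        (Finset.univ.filter (fun h : Fin t → α => P (List.ofFn h))).card := by
  have h1 : Fintype.card α ^ (m - t) = (Finset.univ : Finset (Fin (m - t) → α)).card := by
    rw [Finset.card_univ, Fintype.card_fun, Fintype.card_fin]
  rw [h1, ← Finset.card_product]
  apply Finset.card_le_card_of_injOn
    (fun h : Fin m → α =>
      ((fun i : Fin (m - t) => if hi : i.1 < s then h ⟨i.1, by omega⟩ else h ⟨i.1 + t, by omega⟩),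
      (fun i : Fin t => h ⟨s + i, lt_of_lt_of_le (Nat.add_lt_add_left i.2 s) hst⟩)))
  · intro h hh
    rw [Finset.mem_coe, Finset.mem_filter] at hh
    rw [Finset.mem_coe, Finset.mem_product, Finset.mem_filter]
    refine ⟨Finset.mem_univ _, Finset.mem_univ _, ?_⟩
    rw [← drop_take_ofFn s t hst h]
    exact hh.2
  · intro h _ h' _ heq
    rw [Prod.mk.injEq] at heq
    obtain ⟨h2, h3⟩ := heq
    funext i
    rcases lt_or_ge i.1 s with hi | hi
    · have := congrFun h2 ⟨i.1, by omega⟩
      simpa [hi] using this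
    · rcases lt_or_ge i.1 (s + t) with hi2 | hi2
      · have := congrFun h3 ⟨i.1 - s, by omega⟩
        have h4 : s + (i.1 - s) = i.1 := by omega
        simpa [h4] using this
      · have := congrFun h2 ⟨i.1 - t, by omega⟩
        have h4 : ¬ (i.1 - t < s) := by omega
        have h5 : i.1 - t + t = i.1 := by omega
        simpa [h4, h5] using this

theorem bad : S_NIL → S_LOW → S_SPAN → S_BAD := by
  intro hN hL hS p _ k F _ _ _ _ x hG L I b hI hb hIk hlamp
  classical
  have hcount : ∀ s : Fin b, (Finset.univ.filter (fun h : Fin (7 * b - 1) → NilT p =>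
      Nat.card (US L (((List.ofFn h).drop s.1).map (st x))) < p ^ (I * b))).card ≤
      (p ^ 2) ^ (2 * b - 1) * (p ^ (4 * b) * (4 * p) ^ (5 * b)) := by
    intro s
    have hs := s.2
    have h1 : (Finset.univ.filter (fun h : Fin (7 * b - 1) → NilT p =>
        Nat.card (US L (((List.ofFn h).drop s.1).map (st x))) < p ^ (I * b))).card ≤
        (Finset.univ.filter (fun h : Fin (7 * b - 1) → NilT p =>
          dg (pw (X : (ZMod p)[X]) (((List.ofFn h).drop s.1).take (5 * b))) < b)).card := by
      apply Finset.card_le_card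
      intro h hh
      rw [Finset.mem_filter] at hh ⊢
      refine ⟨hh.1, ?_⟩
      by_contra hcon
      push Not at hcon
      have := hS p k F x hG L I b hI hb hIk hlamp ((List.ofFn h).drop s.1) (5 * b) (by omega)
      exact absurd hh.2 (not_lt.mpr this)
    have h2 := count_mid (α := NilT p) (7 * b - 1) s.1 (5 * b) (by omega)
      (fun l => dg (pw (X : (ZMod p)[X]) l) < b)
    have h3 := hL p (5 * b) b
    have h4 : Nat.card {h : Fin (5 * b) → NilT p // dg (pw (X : (ZMod p)[X]) (List.ofFn h)) < b} =
        (Finset.univ.filter (fun h : Fin (5 * b) → NilT p =>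
          dg (pw (X : (ZMod p)[X]) (List.ofFn h)) < b)).card := by
      rw [Nat.card_eq_fintype_card, Fintype.card_subtype]
    rw [h4] at h3
    rw [hN p, show 7 * b - 1 - 5 * b = 2 * b - 1 by omega] at h2
    refine le_trans h1 ?_
    refine le_trans (le_of_eq ?_) (h2.trans (Nat.mul_le_mul_left _ (le_trans (le_of_eq ?_) h3)))
    · congr
    · congr
  have hsum : (Finset.univ.filter (fun w : Fin b × (Fin (7 * b - 1) → NilT p) =>
      Nat.card (US L (((List.ofFn w.2).drop w.1.1).map (st x))) < p ^ (I * b))).card ≤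
      b * ((p ^ 2) ^ (2 * b - 1) * (p ^ (4 * b) * (4 * p) ^ (5 * b))) := by
    rw [Finset.card_eq_sum_card_fiberwise (f := fun w => w.1) (t := Finset.univ)
      (fun w _ => Finset.mem_univ _)]
    calc ∑ s : Fin b, ((Finset.univ.filter (fun w : Fin b × (Fin (7 * b - 1) → NilT p) =>
        Nat.card (US L (((List.ofFn w.2).drop w.1.1).map (st x))) < p ^ (I * b))).filter
          (fun w => w.1 = s)).card
        ≤ ∑ _s : Fin b, (p ^ 2) ^ (2 * b - 1) * (p ^ (4 * b) * (4 * p) ^ (5 * b)) := by
          apply Finset.sum_le_sum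
          intro s _
          refine le_trans ?_ (hcount s)
          apply Finset.card_le_card_of_injOn (fun w => w.2)
          · intro w hw
            rw [Finset.mem_coe, Finset.mem_filter, Finset.mem_filter] at hw
            rw [Finset.mem_coe, Finset.mem_filter]
            obtain ⟨⟨_, h1⟩, h2⟩ := hw
            rw [← h2]
            exact ⟨Finset.mem_univ _, h1⟩
          · intro w hw w' hw' heq
            rw [Finset.mem_coe, Finset.mem_filter] at hw hw'
            exact Prod.ext (hw.2.trans hw'.2.symm) heq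
      _ = b * ((p ^ 2) ^ (2 * b - 1) * (p ^ (4 * b) * (4 * p) ^ (5 * b))) := by
          rw [Finset.sum_const, Finset.card_univ, Fintype.card_fin, smul_eq_mul]
  have hcard : Fintype.card (Fin b × (Fin (7 * b - 1) → NilT p)) = b * (p ^ 2) ^ (7 * b - 1) := by
    rw [Fintype.card_prod, Fintype.card_fun, Fintype.card_fin, Fintype.card_fin, hN p]
  rw [hcard]
  refine (Nat.mul_le_mul_right _ hsum).trans (le_of_eq ?_)
  obtain ⟨c, rfl⟩ : ∃ c, b = c + 1 := ⟨b - 1, by omega⟩
  have e1 : 2 * (c + 1) - 1 = 2 * c + 1 := by omega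
  have e2 : 7 * (c + 1) - 1 = 7 * c + 6 := by omega
  rw [e1, e2]
  have e3 : (1024 : ℕ) ^ (c + 1) = 4 ^ (5 * (c + 1)) := by
    rw [pow_mul]; norm_num
  rw [e3, mul_pow]
  ring

end Pool.Agent.Y486.CE
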